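import Mathlib
import Pool.Agent.N44.NS.Defs

/-!
# Project MX: a matricially stable group which is not Hilbert-Schmidt stable

Definitions and statements of the steps.  All groups live in `Type`.
-/

set_option autoImplicit false

namespace Pool.Agent.N708.MX

open Filter Topology
open Pool.Agent.N44.NS (el E3)

noncomputable section

/-- Property (T) (same as `Pool.Agent.W661.RC.HasT`). -/
def PT (G : Type) [Group G] : Prop :=
  ∀ (H : Type) [NormedAddCommGroup H] [InnerProductSpace ℂ H] [CompleteSpace H]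
    (π : G →* unitary (H →L[ℂ] H)),
    (∀ (K : Finset G) (ε : ℝ), 0 < ε →
      ∃ v : H, ‖v‖ = 1 ∧ ∀ g ∈ K, ‖(π g : H →L[ℂ] H) v - v‖ < ε) →
    ∃ v : H, v ≠ 0 ∧ ∀ g : G, (π g : H →L[ℂ] H) v = v

/-- operator norm of a matrix -/
def opn {d : ℕ} (M : Matrix (Fin d) (Fin d) ℂ) : ℝ := ‖Matrix.toEuclideanCLM (𝕜 := ℂ) M‖

/-- square of the normalised Hilbert-Schmidt norm -/
def hs2 {d : ℕ} (M : Matrix (Fin d) (Fin d) ℂ) : ℝ :=
  (Matrix.trace (Matrix.conjTranspose M * M)).re / (d : ℝ)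

/-- asymptotic unitary representation (operator norm) along a filter -/
def AR {G : Type} [Group G] (l : Filter ℕ) (E : ℕ → Type) [∀ n, NormedAddCommGroup (E n)]
    [∀ n, InnerProductSpace ℂ (E n)] [∀ n, CompleteSpace (E n)]
    (U : ∀ n, G → unitary (E n →L[ℂ] E n)) : Prop :=
  ∀ g h, Tendsto (fun n => ‖(U n (g * h) : E n →L[ℂ] E n) - (U n g : E n →L[ℂ] E n) *
    (U n h : E n →L[ℂ] E n)‖) l (𝓝 0)

/-- asymptotic homomorphism into unitary matrices for the operator norm, along a filter -/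
def AH {G : Type} [Group G] (l : Filter ℕ) (d : ℕ → ℕ)
    (φ : ∀ n, G → Matrix.unitaryGroup (Fin (d n)) ℂ) : Prop :=
  ∀ g h, Tendsto (fun n => opn ((φ n (g * h)).val - (φ n g).val * (φ n h).val)) l (𝓝 0)

/-- the data: `h⁻¹ ι(k) h = ι(φ k)` and `K` is generated as a normal subgroup by the commutators
`[c, k]`, `c` in the centraliser of `φ(K)`. -/
structure Dt {K G : Type} [Group K] [Group G] (φ : K →* K) (ι : K →* G) (h : G) : Prop where
  rel : ∀ k, h⁻¹ * ι k * h = ι (φ k)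
  nc : Subgroup.normalClosure {x : K | ∃ c k : K, (∀ a, c * φ a = φ a * c) ∧
    x = c * k * c⁻¹ * k⁻¹} = ⊤
  gen : Subgroup.closure (Set.range ι ∪ {h}) = ⊤

/-- SUB: two subspaces of the same dimension, one almost contained in the other. -/
def S_SUB : Prop :=
  ∀ (H : Type) [NormedAddCommGroup H] [InnerProductSpace ℂ H] [FiniteDimensional ℂ H]
    (V V' : Submodule ℂ H) (δ : ℝ), 0 ≤ δ → δ ≤ 1 / 2 →
    Module.finrank ℂ V = Module.finrank ℂ V' →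
    (∀ v ∈ V', ∃ w ∈ V, ‖v - w‖ ≤ δ * ‖v‖) → ∀ v ∈ V, ∃ w ∈ V', ‖v - w‖ ≤ 2 * δ * ‖v‖

/-- GAP: almost representations of a Kazhdan group (operator norm) have a spectral gap. -/
def S_GAP : Prop :=
  ∀ (K : Type) [Group K] (k : ℕ) (γ : FreeGroup (Fin k) →* K), PT K → Function.Surjective γ →
    ∃ θ : ℝ, 0 < θ ∧ ∃ (δ : ℝ → ℝ) (R : ℝ → Finset (FreeGroup (Fin k))),
      (∀ ε, 0 < ε → 0 < δ ε ∧ ∀ w ∈ R ε, γ w = 1) ∧
      ∀ (H : Type) [NormedAddCommGroup H] [InnerProductSpace ℂ H] [CompleteSpace H]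
        [FiniteDimensional ℂ H] (ρ : FreeGroup (Fin k) →* unitary (H →L[ℂ] H)),
        ∃ V : Submodule ℂ H,
          (∀ v ∈ Vᗮ, θ * ‖v‖ ^ 2 ≤
            ∑ s, ‖(ρ (FreeGroup.of s) : H →L[ℂ] H) v - v‖ ^ 2) ∧
          ∀ ε, 0 < ε → (∀ w ∈ R ε, ‖(ρ w : H →L[ℂ] H) - 1‖ ≤ δ ε) →
            ∀ v ∈ V, ∑ s, ‖(ρ (FreeGroup.of s) : H →L[ℂ] H) v - v‖ ^ 2 ≤ ε * ‖v‖ ^ 2

/-- RANK: the subspaces of almost `K`-invariant vectors are almost invariant under `h`. -/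
def S_RANK : Prop :=
  ∀ (K G : Type) [Group K] [Group G] (φ : K →* K) (ι : K →* G) (h : G) (k : ℕ)
    (γ : FreeGroup (Fin k) →* K), PT K → Function.Surjective γ →
    (∀ a, h⁻¹ * ι a * h = ι (φ a)) →
    ∃ θ : ℝ, 0 < θ ∧
      ∀ (l : Filter ℕ) (E : ℕ → Type) [∀ n, NormedAddCommGroup (E n)]
        [∀ n, InnerProductSpace ℂ (E n)] [∀ n, CompleteSpace (E n)]
        [∀ n, FiniteDimensional ℂ (E n)] (U : ∀ n, G → unitary (E n →L[ℂ] E n)), AR l E U →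
        ∃ V : ∀ n, Submodule ℂ (E n),
          (∀ n, ∀ v ∈ (V n)ᗮ, θ * ‖v‖ ^ 2 ≤
            ∑ s, ‖(U n (ι (γ (FreeGroup.of s))) : E n →L[ℂ] E n) v - v‖ ^ 2) ∧
          (∀ (a : K) (ε : ℝ), 0 < ε → ∀ᶠ n in l, ∀ v ∈ V n,
            ‖(U n (ι a) : E n →L[ℂ] E n) v - v‖ ≤ ε * ‖v‖) ∧
          (∀ ε : ℝ, 0 < ε → ∀ᶠ n in l, ∀ v ∈ V n, ∃ w ∈ V n,
            ‖(U n h : E n →L[ℂ] E n) w - v‖ ≤ ε * ‖v‖) ∧
          (∀ ε : ℝ, 0 < ε → ∀ᶠ n in l, ∀ v ∈ V n, ∃ w ∈ V n,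
            ‖(U n h : E n →L[ℂ] E n) v - w‖ ≤ ε * ‖v‖)

/-- COM: elements of the centraliser of `φ(K)` almost commute with `K` in the normalised
Hilbert-Schmidt norm. -/
def S_COM : Prop :=
  ∀ (K G : Type) [Group K] [Group G] (φ : K →* K) (ι : K →* G) (h : G) (k : ℕ)
    (γ : FreeGroup (Fin k) →* K), PT K → Function.Surjective γ →
    (∀ a, h⁻¹ * ι a * h = ι (φ a)) →
    ∀ (l : Filter ℕ) (d : ℕ → ℕ) (U : ∀ n, G → Matrix.unitaryGroup (Fin (d n)) ℂ), AH l d U →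
      ∀ c : K, (∀ a, c * φ a = φ a * c) → ∀ a : K,
        Tendsto (fun n => hs2 ((U n (ι c)).val * (U n (ι a)).val -
          (U n (ι a)).val * (U n (ι c)).val)) l (𝓝 0)

/-- TRIV: `K` is asymptotically trivial in the normalised Hilbert-Schmidt norm. -/
def S_TRIV : Prop :=
  ∀ (K G : Type) [Group K] [Group G] (φ : K →* K) (ι : K →* G) (h : G) (k : ℕ)
    (γ : FreeGroup (Fin k) →* K), PT K → Function.Surjective γ → Dt φ ι h →
    ∀ (l : Filter ℕ) (d : ℕ → ℕ) (U : ∀ n, G → Matrix.unitaryGroup (Fin (d n)) ℂ), AH l d U →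
      ∀ a : K, Tendsto (fun n => hs2 ((U n (ι a)).val - 1)) l (𝓝 0)

/-- POLAR: an almost unitary matrix is close to a unitary matrix. -/
def S_POLAR : Prop :=
  ∀ (d : ℕ) (T : Matrix (Fin d) (Fin d) ℂ) (η : ℝ), 0 ≤ η → η ≤ 1 / 2 →
    opn (T.conjTranspose * T - 1) ≤ η →
    ∃ u : Matrix.unitaryGroup (Fin d) ℂ, opn (T - u.val) ≤ η

/-- MAIN: `K` is asymptotically trivial in the operator norm. -/
def S_MAIN : Prop :=
  ∀ (K G : Type) [Group K] [Group G] (φ : K →* K) (ι : K →* G) (h : G) (k : ℕ)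
    (γ : FreeGroup (Fin k) →* K), PT K → Function.Surjective γ → Dt φ ι h →
    ∀ (l : Filter ℕ) (d : ℕ → ℕ) (U : ∀ n, G → Matrix.unitaryGroup (Fin (d n)) ℂ), AH l d U →
      ∀ a : K, Tendsto (fun n => opn ((U n (ι a)).val - 1)) l (𝓝 0)

/-- UNIV: the ascending HNN extension. -/
def S_UNIV : Prop :=
  ∀ (K : Type) [Group K] [Countable K] (φ : K →* K),
    ∃ (G : Type) (_ : Group G) (_ : Countable G) (ι : K →* G) (h : G),
      (∀ a, h⁻¹ * ι a * h = ι (φ a)) ∧ Subgroup.closure (Set.range ι ∪ {h}) = ⊤ ∧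
      ∀ (Q : Type) [Group Q] (f : K →* Q) (t : Q), (∀ a, t⁻¹ * f a * t = f (φ a)) →
        ∃ F : G →* Q, (∀ a, F (ι a) = f a) ∧ F h = t

/-- PERM: Hilbert-Schmidt asymptotic homomorphisms of the ascending HNN extension from finite
actions of `K`. -/
def S_PERM : Prop :=
  ∀ (K G : Type) [Group K] [Group G] (φ : K →* K) (ι : K →* G) (h : G),
    (∀ (Q : Type) [Group Q] (f : K →* Q) (t : Q), (∀ a, t⁻¹ * f a * t = f (φ a)) →
        ∃ F : G →* Q, (∀ a, F (ι a) = f a) ∧ F h = t) →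
    ∀ k₀ : K, (∀ m : ℕ, ∃ (X : Type) (_ : Fintype X) (_ : DecidableEq X) (_ : Nonempty X)
      (α : K →* Equiv.Perm X), ∀ j ≤ m,
        2 * (Finset.univ.filter fun x => α (φ^[j] k₀) x = x).card ≤ Fintype.card X) →
    ∃ (d : ℕ → ℕ) (U : ∀ n, G → Matrix.unitaryGroup (Fin (d n)) ℂ),
      (∀ g g', Tendsto (fun n => hs2 ((U n (g * g')).val - (U n g).val * (U n g').val))
        atTop (𝓝 0)) ∧
      ¬ Tendsto (fun n => hs2 ((U n (ι k₀)).val - 1)) atTop (𝓝 0)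

/-- ALG: the algebra. -/
def S_ALG : Prop :=
  ∃ (F : Type) (_ : Field F) (_ : Fintype F) (A : Type) (_ : Ring A) (_ : Algebra F A)
    (g : Fin 4 → A) (ψ : A →ₙ+* A) (p q : A), 256 ≤ Fintype.card F ∧
      Algebra.adjoin F (Set.range g) = ⊤ ∧ p * (1 - ψ 1) * q = ψ 1 ∧
      ∀ m : ℕ, ∃ (W : Type) (_ : AddCommGroup W) (_ : Fintype W) (_ : DecidableEq W)
        (ρ : A →+* AddMonoid.End W), ∀ j ≤ m, ρ (ψ^[j] 1) ≠ 0

/-- ENDO: the endomorphism of `E_3(A)` and the centraliser of its image. -/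
def S_ENDO : Prop :=
  ∀ (A : Type) [Ring A] (ψ : A →ₙ+* A) (p q : A), p * (1 - ψ 1) * q = ψ 1 →
    ∃ φ : E3 A →* E3 A,
      (∀ (i j : Fin 3) (hij : i ≠ j) (a : A), ((φ ⟨el i j hij a, Subgroup.subset_closure
        ⟨i, j, hij, a, rfl⟩⟩ : E3 A) : (Matrix (Fin 3) (Fin 3) A)ˣ) = el i j hij (ψ a)) ∧
      Subgroup.normalClosure {x : E3 A | ∃ c k : E3 A, (∀ a, c * φ a = φ a * c) ∧
        x = c * k * c⁻¹ * k⁻¹} = ⊤

/-- ACT: finite actions of `E_3(A)`. -/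
def S_ACT : Prop :=
  ∀ (A : Type) [Ring A] (ψ : A →ₙ+* A) (φ : E3 A →* E3 A),
    (∀ (i j : Fin 3) (hij : i ≠ j) (a : A), ((φ ⟨el i j hij a, Subgroup.subset_closure
        ⟨i, j, hij, a, rfl⟩⟩ : E3 A) : (Matrix (Fin 3) (Fin 3) A)ˣ) = el i j hij (ψ a)) →
    ∀ (W : Type) [AddCommGroup W] [Fintype W] [DecidableEq W] (ρ : A →+* AddMonoid.End W)
      (m : ℕ), (∀ j ≤ m, ρ (ψ^[j] 1) ≠ 0) →
    ∃ (X : Type) (_ : Fintype X) (_ : DecidableEq X) (_ : Nonempty X)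
      (α : E3 A →* Equiv.Perm X), ∀ j ≤ m,
        2 * (Finset.univ.filter fun x => α (φ^[j] ⟨el 0 1 (by decide) 1,
          Subgroup.subset_closure ⟨0, 1, by decide, 1, rfl⟩⟩) x = x).card ≤ Fintype.card X

/-- FG: Kazhdan groups are finitely generated. -/
def S_FG : Prop :=
  ∀ (G : Type) [Group G], PT G → ∃ (k : ℕ) (γ : FreeGroup (Fin k) →* G), Function.Surjective γ

/-- TT: property (T) of `E_3(A)`. -/
def S_TT : Prop :=
  ∀ (K : Type) [Field K] [Fintype K], 256 ≤ Fintype.card K → ∀ (A : Type) [Ring A] [Algebra K A]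
    (g : Fin 4 → A), Algebra.adjoin K (Set.range g) = ⊤ → PT (E3 A)

/-- The group: everything which is used in the two applications. -/
def S_GROUP : Prop :=
  ∃ (K G : Type) (_ : Group K) (_ : Group G) (_ : Countable G) (φ : K →* K) (ι : K →* G) (h : G)
    (k : ℕ) (γ : FreeGroup (Fin k) →* K) (k₀ : K), PT K ∧ Function.Surjective γ ∧ Dt φ ι h ∧
      (∀ (Q : Type) [Group Q] (f : K →* Q) (t : Q), (∀ a, t⁻¹ * f a * t = f (φ a)) →
        ∃ F : G →* Q, (∀ a, F (ι a) = f a) ∧ F h = t) ∧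
      (∀ m : ℕ, ∃ (X : Type) (_ : Fintype X) (_ : DecidableEq X) (_ : Nonempty X)
        (α : K →* Equiv.Perm X), ∀ j ≤ m,
          2 * (Finset.univ.filter fun x => α (φ^[j] k₀) x = x).card ≤ Fintype.card X)

end

end Pool.Agent.N708.MX
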