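import Pool.Agent.N708.MX.Stm2

/-!
# Project MX, second application: reduced group `C^*`-algebras without matricial models
-/

set_option autoImplicit false

namespace Pool.Agent.N708.MX

open Filter Topology
open scoped Pointwise symmDiff

noncomputable section

/-- The Hilbert space `ℓ²(G)`. -/
abbrev Ell (G : Type) : Type := lp (fun _ : G => ℂ) 2

/-- Left translation `f ↦ (x ↦ f (g⁻¹ x))`, an isometry of `ℓ²(G)`. -/
def lamI {G : Type} [Group G] (g : G) : Ell G →ₗᵢ[ℂ] Ell G where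
  toFun := fun f => ⟨fun x => f (g⁻¹ * x), by
    have h1 := (lp.memℓp f).summable (by norm_num)
    refine memℓp_gen ?_
    exact ((Equiv.mulLeft g⁻¹).summable_iff (f := fun x => ‖f x‖ ^ (2 : ENNReal).toReal)).2 h1⟩
  map_add' := fun _ _ => rfl
  map_smul' := fun _ _ => rfl
  norm_map' := fun f => by
    have h1 : (0 : ℝ) < (2 : ENNReal).toReal := by norm_num
    refine (lp.norm_eq_tsum_rpow h1 _).trans (Eq.trans ?_ (lp.norm_eq_tsum_rpow h1 _).symm)
    congr 1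
    exact (Equiv.mulLeft g⁻¹).tsum_eq (fun x => ‖f x‖ ^ (2 : ENNReal).toReal)

/-- The left regular representation `λ_g`, as a bounded operator on `ℓ²(G)`. -/
def lam {G : Type} [Group G] (g : G) : Ell G →L[ℂ] Ell G := (lamI g).toContinuousLinearMap

/-- The reduced group `C^*`-algebra: the operator norm closure of the `*`-algebra generated by the
operators `λ_g`. -/
def Cred (G : Type) [Group G] : StarSubalgebra ℂ (Ell G →L[ℂ] Ell G) :=
  (StarAlgebra.adjoin ℂ (Set.range (lam (G := G)))).topologicalClosure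

/-- `θ` is a set-theoretic lift of a `*`-homomorphism from `A` to
`∏ M_{d n}(ℂ) / ⨁ M_{d n}(ℂ)` (bounded sequences modulo sequences tending to `0` in operator
norm). -/
structure AsHom {A : Type} [Ring A] [Algebra ℂ A] [Star A] (d : ℕ → ℕ)
    (θ : ∀ n, A → Matrix (Fin (d n)) (Fin (d n)) ℂ) : Prop where
  bdd : ∀ a, ∃ C : ℝ, ∀ n, opn (θ n a) ≤ C
  add : ∀ a b, Tendsto (fun n => opn (θ n (a + b) - (θ n a + θ n b))) atTop (𝓝 0)
  smul : ∀ (z : ℂ) a, Tendsto (fun n => opn (θ n (z • a) - z • θ n a)) atTop (𝓝 0)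
  mul : ∀ a b, Tendsto (fun n => opn (θ n (a * b) - θ n a * θ n b)) atTop (𝓝 0)
  star : ∀ a, Tendsto (fun n => opn (θ n (star a) - (θ n a).conjTranspose)) atTop (𝓝 0)

/-- `A` is matricially weakly semiprojective: every `*`-homomorphism from `A` to
`∏ M_{d n}(ℂ) / ⨁ M_{d n}(ℂ)` lifts to a `*`-homomorphism to `∏ M_{d n}(ℂ)`. -/
def MWSP (A : Type) [Ring A] [Algebra ℂ A] [Star A] : Prop :=
  ∀ (d : ℕ → ℕ) (θ : ∀ n, A → Matrix (Fin (d n)) (Fin (d n)) ℂ), AsHom d θ →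
    ∃ ψ : ∀ n, A →⋆ₙₐ[ℂ] Matrix (Fin (d n)) (Fin (d n)) ℂ,
      ∀ a, Tendsto (fun n => opn (θ n a - ψ n a)) atTop (𝓝 0)

/-- Amenability of a discrete group (Følner's condition). -/
def IsAmenable (G : Type) [Group G] : Prop :=
  ∀ (S : Finset G) (ε : ℝ), 0 < ε → ∃ F : Finset G, F.Nonempty ∧
    ∀ s ∈ S, (((s • (F : Set G)) ∆ (F : Set G)).ncard : ℝ) ≤ ε * F.card

/-- INF: the image of `K` is infinite. -/
def S_INF : Prop :=
  ∀ (K G : Type) [Group K] [Group G] (φ : K →* K) (ι : K →* G) (h : G) (k : ℕ)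
    (γ : FreeGroup (Fin k) →* K), PT K → Function.Surjective γ → Dt φ ι h →
    (∃ a, ι a ≠ 1) → Infinite ι.range

/-- REG: spectral gap of an infinite Kazhdan subgroup in the regular representation. -/
def S_REG : Prop :=
  ∀ (K G : Type) [Group K] [Group G] (ι : K →* G) (k : ℕ)
    (γ : FreeGroup (Fin k) →* K), PT K → Function.Surjective γ → Infinite ι.range →
    (∃ κ : ℝ, 0 < κ ∧ ∀ v : Ell G, κ * ‖v‖ ^ 2 ≤
      ∑ s, ‖lam (ι (γ (FreeGroup.of s))) v - v‖ ^ 2) ∧ ¬ IsAmenable G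

/-- NOH: no nonzero `*`-homomorphism from `C^*_r(G)` to `∏ M_{d n}(ℂ) / ⨁ M_{d n}(ℂ)`. -/
def S_NOH : Prop :=
  ∀ (K G : Type) [Group K] [Group G] (φ : K →* K) (ι : K →* G) (h : G) (k : ℕ)
    (γ : FreeGroup (Fin k) →* K), PT K → Function.Surjective γ → Dt φ ι h →
    (∃ κ : ℝ, 0 < κ ∧ ∀ v : Ell G, κ * ‖v‖ ^ 2 ≤
      ∑ s, ‖lam (ι (γ (FreeGroup.of s))) v - v‖ ^ 2) →
    ∀ (d : ℕ → ℕ) (θ : ∀ n, Cred G → Matrix (Fin (d n)) (Fin (d n)) ℂ), AsHom d θ →
      ∀ a, Tendsto (fun n => opn (θ n a)) atTop (𝓝 0)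

end

end Pool.Agent.N708.MX
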