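import Pool.Agent.N708.MX.Bas

/-!
# Project MX: assembly of the group and of the final statement
-/

set_option autoImplicit false

namespace Pool.Agent.N708.MX

open Filter Topology
open Pool.Agent.N44.NS (el E3)

noncomputable section

theorem group_of (hA : S_ALG) (hE : S_ENDO) (hX : S_ACT) (hF : S_FG) (hT : S_TT)
    (hU : S_UNIV) : S_GROUP := by
  obtain ⟨F, _, _, A, _, _, g, ψ, p, q, hc, hg, hpq, hW⟩ := hA
  have hPT : PT (E3 A) := hT F hc A g hg
  obtain ⟨k, γ, hγ⟩ := hF (E3 A) hPT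
  have hcount : Countable (E3 A) := hγ.countable
  obtain ⟨φ, hφ, hnc⟩ := hE A ψ p q hpq
  obtain ⟨G, iG, iC, ι, h, hrel, hgen, huniv⟩ := hU (E3 A) φ
  refine ⟨E3 A, G, inferInstance, iG, iC, φ, ι, h, k, γ, ⟨el 0 1 (by decide) 1,
          Subgroup.subset_closure ⟨0, 1, by decide, 1, rfl⟩⟩, hPT, hγ, ⟨hrel, hnc, hgen⟩, huniv, ?_⟩
  intro m
  obtain ⟨W, _, _, _, ρ, hρ⟩ := hW m
  exact hX A ψ φ hφ W ρ m hρ

/-- The matrices of a genuine representation form an asymptotic homomorphism. -/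
theorem AH_of_hom {G : Type} [Group G] (l : Filter ℕ) (d : ℕ → ℕ)
    (ρ : ∀ n, G →* Matrix.unitaryGroup (Fin (d n)) ℂ) : AH l d (fun n g => ρ n g) := by
  intro g h
  refine tendsto_const_nhds.congr fun n => ?_
  beta_reduce
  rw [map_mul]
  have : ((ρ n g * ρ n h : Matrix.unitaryGroup (Fin (d n)) ℂ)).val -
      (ρ n g).val * (ρ n h).val = 0 := by
    rw [sub_eq_zero]
    rfl
  rw [this, opn_zero]

/-- matricial stability of the group -/
theorem matr_stable (hM : S_MAIN) {K G : Type} [Group K] [Group G] {φ : K →* K} {ι : K →* G}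
    {h : G} {k : ℕ} (γ : FreeGroup (Fin k) →* K) (hPT : PT K) (hγ : Function.Surjective γ)
    (hD : Dt φ ι h)
    (hun : ∀ (Q : Type) [Group Q] (f : K →* Q) (t : Q), (∀ a, t⁻¹ * f a * t = f (φ a)) →
        ∃ F : G →* Q, (∀ a, F (ι a) = f a) ∧ F h = t)
    {l : Filter ℕ} {d : ℕ → ℕ} {U : ∀ n, G → Matrix.unitaryGroup (Fin (d n)) ℂ}
    (hU : AH l d U) :
    ∃ ρ : ∀ n : ℕ, G →* Matrix.unitaryGroup (Fin (d n)) ℂ,
      ∀ g : G, Tendsto (fun n => opn ((U n g).val - (ρ n g).val)) l (𝓝 0) := by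
  have hK := hM K G φ ι h k γ hPT hγ hD l d U hU
  have hρ : ∀ n, ∃ F : G →* Matrix.unitaryGroup (Fin (d n)) ℂ, (∀ a, F (ι a) = 1) ∧
      F h = U n h := fun n =>
    hun _ (1 : K →* Matrix.unitaryGroup (Fin (d n)) ℂ) (U n h) (fun a => by simp)
  choose ρ hρ1 hρ2 using hρ
  refine ⟨ρ, ?_⟩
  let S : Subgroup G :=
    { carrier := {g | Tendsto (fun n => opn ((U n g).val - (ρ n g).val)) l (𝓝 0)}
      one_mem' := by
        refine hU.one.congr fun n => ?_
        rw [map_one]
        rfl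
      mul_mem' := by
        intro a b ha hb
        have h1 := ((hU a b).add ha).add hb
        simp only [add_zero] at h1
        refine tz_of_le (fun n => opn_nonneg _) (fun n => ?_) h1
        rw [map_mul]
        have e : (U n (a * b)).val - ((ρ n a * ρ n b : Matrix.unitaryGroup (Fin (d n)) ℂ)).val =
            ((U n (a * b)).val - (U n a).val * (U n b).val) +
            (((U n a).val - (ρ n a).val) * (U n b).val +
              (ρ n a).val * ((U n b).val - (ρ n b).val)) := by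
          rw [show ((ρ n a * ρ n b : Matrix.unitaryGroup (Fin (d n)) ℂ)).val =
            (ρ n a).val * (ρ n b).val from rfl]
          noncomm_ring
        rw [e]
        refine (opn_add_le _ _).trans ?_
        rw [add_assoc]
        refine add_le_add le_rfl ((opn_add_le _ _).trans ?_)
        rw [opn_mul_unitary, opn_unitary_mul]
      inv_mem' := by
        intro a ha
        have h1 := (hU.inv a).add ha
        simp only [add_zero] at h1
        refine tz_of_le (fun n => opn_nonneg _) (fun n => ?_) h1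
        rw [map_inv, inv_val]
        refine (opn_sub_sub_le _ ((U n a).val).conjTranspose _).trans ?_
        refine add_le_add le_rfl ?_
        rw [← Matrix.conjTranspose_sub, opn_star] }
  have hS : S = ⊤ := by
    rw [eq_top_iff, ← hD.gen, Subgroup.closure_le]
    rintro x (⟨a, rfl⟩ | hx)
    · change Tendsto (fun n => opn ((U n (ι a)).val - (ρ n (ι a)).val)) l (𝓝 0)
      refine (hK a).congr fun n => ?_
      rw [hρ1]
      rfl
    · rw [Set.mem_singleton_iff] at hx
      subst hx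
      change Tendsto (fun n => opn ((U n x).val - (ρ n x).val)) l (𝓝 0)
      refine tendsto_const_nhds.congr fun n => ?_
      rw [hρ2, sub_self, opn_zero]
  intro g
  have : g ∈ S := by rw [hS]; trivial
  exact this

theorem final_of (hG : S_GROUP) (hM : S_MAIN) (hP : S_PERM) :
    ¬ (∀ (G : Type) [Group G] [Countable G],
      (∀ (k : ℕ → ℕ) (φ : ∀ n : ℕ, G → Matrix.unitaryGroup (Fin (k n)) ℂ),
        (∀ g h : G, Tendsto (fun n : ℕ =>
            ‖Matrix.toEuclideanCLM (𝕜 := ℂ)
              ((φ n (g * h)).val - (φ n g).val * (φ n h).val)‖) atTop (𝓝 0)) →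
        ∃ ρ : ∀ n : ℕ, G →* Matrix.unitaryGroup (Fin (k n)) ℂ,
          ∀ g : G, Tendsto (fun n : ℕ =>
            ‖Matrix.toEuclideanCLM (𝕜 := ℂ) ((φ n g).val - (ρ n g).val)‖) atTop (𝓝 0)) →
      (∀ (k : ℕ → ℕ) (φ : ∀ n : ℕ, G → Matrix.unitaryGroup (Fin (k n)) ℂ),
        (∀ g h : G, Tendsto (fun n : ℕ =>
            (Matrix.trace (Matrix.conjTranspose
                ((φ n (g * h)).val - (φ n g).val * (φ n h).val) *
              ((φ n (g * h)).val - (φ n g).val * (φ n h).val))).re / (k n : ℝ))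
            atTop (𝓝 0)) →
        ∃ ρ : ∀ n : ℕ, G →* Matrix.unitaryGroup (Fin (k n)) ℂ,
          ∀ g : G, Tendsto (fun n : ℕ =>
            (Matrix.trace (Matrix.conjTranspose ((φ n g).val - (ρ n g).val) *
              ((φ n g).val - (ρ n g).val))).re / (k n : ℝ)) atTop (𝓝 0))) := by
  intro hall
  obtain ⟨K, G, _, _, _, φ, ι, h, k, γ, k₀, hPT, hγ, hD, hun, hX⟩ := hG
  have hst := hall G (fun d U hU => matr_stable hM γ hPT hγ hD hun (l := atTop) (d := d) (U := U) hU)
  obtain ⟨d, U, hU, hno⟩ := hP K G φ ι h hun k₀ hX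
  obtain ⟨ρ, hρ⟩ := hst d U hU
  apply hno
  have h1 := hM K G φ ι h k γ hPT hγ hD atTop d (fun n g => ρ n g) (AH_of_hom _ _ _) k₀
  have h2 := tz_hs2_of_opn h1
  have h3 : Tendsto (fun n => hs2 ((U n (ι k₀)).val - (ρ n (ι k₀)).val)) atTop (𝓝 0) := hρ (ι k₀)
  have h4 := tz_hs2_add h3 h2
  refine h4.congr fun n => ?_
  congr 1
  abel

end

end Pool.Agent.N708.MX
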