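import Pool.Agent.N708.MX.Stm2

/-!
# Project MX: basic lemmas on the operator norm and the normalised Hilbert-Schmidt norm
-/

set_option autoImplicit false

namespace Pool.Agent.N708.MX

open Filter Topology

noncomputable section

section opnorm

variable {d : ℕ} (a b : Matrix (Fin d) (Fin d) ℂ)

theorem opn_nonneg : 0 ≤ opn a := norm_nonneg _

theorem opn_add_le : opn (a + b) ≤ opn a + opn b := by
  unfold opn
  rw [map_add]
  exact norm_add_le _ _

theorem opn_sub_le : opn (a - b) ≤ opn a + opn b := by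
  unfold opn
  rw [map_sub]
  exact norm_sub_le _ _

theorem opn_neg : opn (-a) = opn a := by
  unfold opn
  rw [map_neg, norm_neg]

theorem opn_sub_comm : opn (a - b) = opn (b - a) := by
  unfold opn
  rw [map_sub, map_sub, norm_sub_rev]

theorem opn_mul_le : opn (a * b) ≤ opn a * opn b := by
  unfold opn
  rw [map_mul]
  exact norm_mul_le _ _

theorem opn_zero : opn (0 : Matrix (Fin d) (Fin d) ℂ) = 0 := by
  unfold opn
  rw [map_zero, norm_zero]

theorem opn_star : opn a.conjTranspose = opn a := by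
  unfold opn
  rw [← Matrix.star_eq_conjTranspose, map_star, ContinuousLinearMap.star_eq_adjoint]
  exact LinearIsometryEquiv.norm_map ContinuousLinearMap.adjoint _

theorem opn_apply_le (v : EuclideanSpace ℂ (Fin d)) :
    ‖Matrix.toEuclideanCLM (𝕜 := ℂ) a v‖ ≤ opn a * ‖v‖ :=
  ContinuousLinearMap.le_opNorm _ _

theorem opn_le_of {C : ℝ} (hC : 0 ≤ C)
    (h : ∀ v, ‖Matrix.toEuclideanCLM (𝕜 := ℂ) a v‖ ≤ C * ‖v‖) : opn a ≤ C :=
  ContinuousLinearMap.opNorm_le_bound _ hC h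

theorem opn_sub_sub_le (c : Matrix (Fin d) (Fin d) ℂ) :
    opn (a - c) ≤ opn (a - b) + opn (b - c) := by
  have h : a - c = (a - b) + (b - c) := by abel
  rw [h]
  exact opn_add_le _ _

end opnorm

section unit

variable {d : ℕ} (u v : Matrix.unitaryGroup (Fin d) ℂ) (a b : Matrix (Fin d) (Fin d) ℂ)

theorem u_star_mul : (u.val).conjTranspose * u.val = 1 := by
  rw [← Matrix.star_eq_conjTranspose]
  exact (Unitary.mem_iff.1 u.2).1

theorem u_mul_star : u.val * (u.val).conjTranspose = 1 := by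
  rw [← Matrix.star_eq_conjTranspose]
  exact (Unitary.mem_iff.1 u.2).2

theorem inv_val : (u⁻¹).val = (u.val).conjTranspose := rfl

theorem norm_op_apply (x : EuclideanSpace ℂ (Fin d)) : ‖op u x‖ = ‖x‖ := by
  have h : star (op u) * op u = 1 := by
    unfold op
    rw [← map_star, ← map_mul, Matrix.star_eq_conjTranspose, u_star_mul, map_one]
  have h2 : ‖op u x‖ ^ 2 = ‖x‖ ^ 2 := by
    rw [← inner_self_eq_norm_sq (𝕜 := ℂ), ← inner_self_eq_norm_sq (𝕜 := ℂ)]
    congr 1
    rw [← ContinuousLinearMap.adjoint_inner_right, ← ContinuousLinearMap.star_eq_adjoint]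
    have h3 : star (op u) (op u x) = (star (op u) * op u) x := rfl
    rw [h3, h]
    rfl
  exact (sq_eq_sq₀ (norm_nonneg _) (norm_nonneg _)).1 h2

theorem opn_unitary_le : opn u.val ≤ 1 :=
  opn_le_of _ zero_le_one fun x => by
    rw [one_mul]
    exact (norm_op_apply u x).le

theorem opn_unitary_mul : opn (u.val * a) = opn a := by
  apply le_antisymm
  · refine (opn_mul_le _ _).trans ?_
    exact (mul_le_mul_of_nonneg_right (opn_unitary_le u) (opn_nonneg a)).trans (by rw [one_mul])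
  · have h : a = (u.val).conjTranspose * (u.val * a) := by
      rw [← mul_assoc, u_star_mul, one_mul]
    conv_lhs => rw [h]
    refine (opn_mul_le _ _).trans ?_
    rw [opn_star]
    exact (mul_le_mul_of_nonneg_right (opn_unitary_le u) (opn_nonneg _)).trans (by rw [one_mul])

theorem opn_mul_unitary : opn (a * u.val) = opn a := by
  apply le_antisymm
  · refine (opn_mul_le _ _).trans ?_
    exact (mul_le_mul_of_nonneg_left (opn_unitary_le u) (opn_nonneg a)).trans (by rw [mul_one])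
  · have h : a = (a * u.val) * (u.val).conjTranspose := by
      rw [mul_assoc, u_mul_star, mul_one]
    conv_lhs => rw [h]
    refine (opn_mul_le _ _).trans ?_
    rw [opn_star]
    exact (mul_le_mul_of_nonneg_left (opn_unitary_le u) (opn_nonneg _)).trans (by rw [mul_one])

theorem opn_star_mul : opn ((u.val).conjTranspose * a) = opn a := opn_unitary_mul u⁻¹ a

theorem opn_mul_star : opn (a * (u.val).conjTranspose) = opn a := opn_mul_unitary u⁻¹ a

end unit

section fro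

variable {d : ℕ} (a b : Matrix (Fin d) (Fin d) ℂ)

/-- square of the Frobenius norm -/
def fr2 (a : Matrix (Fin d) (Fin d) ℂ) : ℝ := (Matrix.trace (Matrix.conjTranspose a * a)).re

theorem hs2_eq : hs2 a = fr2 a / d := rfl

theorem fr2_eq_sum : fr2 a = ∑ j, ∑ i, ‖a i j‖ ^ 2 := by
  unfold fr2 Matrix.trace
  rw [Complex.re_sum]
  refine Finset.sum_congr rfl fun j _ => ?_
  rw [Matrix.diag_apply, Matrix.mul_apply, Complex.re_sum]
  refine Finset.sum_congr rfl fun i _ => ?_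
  rw [Matrix.conjTranspose_apply, Complex.star_def, ← Complex.normSq_eq_conj_mul_self,
    Complex.normSq_eq_norm_sq]
  norm_cast

theorem fr2_eq_cols : fr2 a =
    ∑ j, ‖Matrix.toEuclideanCLM (𝕜 := ℂ) a (EuclideanSpace.single j 1)‖ ^ 2 := by
  rw [fr2_eq_sum]
  refine Finset.sum_congr rfl fun j _ => ?_
  rw [EuclideanSpace.norm_sq_eq]
  refine Finset.sum_congr rfl fun i _ => ?_
  congr 2
  have h := Matrix.ofLp_toEuclideanCLM (𝕜 := ℂ) a (EuclideanSpace.single j 1)
  rw [h]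
  simp

theorem fr2_nonneg : 0 ≤ fr2 a := by
  rw [fr2_eq_sum]
  positivity

theorem fr2_star : fr2 a.conjTranspose = fr2 a := by
  rw [fr2_eq_sum, fr2_eq_sum, Finset.sum_comm]
  refine Finset.sum_congr rfl fun j _ => Finset.sum_congr rfl fun i _ => ?_
  rw [Matrix.conjTranspose_apply, norm_star]

theorem fr2_neg : fr2 (-a) = fr2 a := by
  rw [fr2_eq_sum, fr2_eq_sum]
  simp

theorem fr2_add_le : fr2 (a + b) ≤ 2 * fr2 a + 2 * fr2 b := by
  rw [fr2_eq_sum, fr2_eq_sum, fr2_eq_sum, Finset.mul_sum, Finset.mul_sum, ← Finset.sum_add_distrib]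
  refine Finset.sum_le_sum fun j _ => ?_
  rw [Finset.mul_sum, Finset.mul_sum, ← Finset.sum_add_distrib]
  refine Finset.sum_le_sum fun i _ => ?_
  rw [Matrix.add_apply]
  have h1 : ‖a i j + b i j‖ ≤ ‖a i j‖ + ‖b i j‖ := norm_add_le _ _
  nlinarith [norm_nonneg (a i j + b i j), sq_nonneg (‖a i j‖ - ‖b i j‖), norm_nonneg (a i j),
    norm_nonneg (b i j)]

theorem fr2_mul_le : fr2 (a * b) ≤ opn a ^ 2 * fr2 b := by
  rw [fr2_eq_cols, fr2_eq_cols, Finset.mul_sum]
  refine Finset.sum_le_sum fun j _ => ?_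
  rw [map_mul, ← mul_pow]
  refine pow_le_pow_left₀ (norm_nonneg _) ?_ 2
  exact opn_apply_le a _

theorem fr2_mul_le' : fr2 (a * b) ≤ opn b ^ 2 * fr2 a := by
  rw [← fr2_star, Matrix.conjTranspose_mul]
  refine (fr2_mul_le _ _).trans ?_
  rw [opn_star, fr2_star]

theorem fr2_one : fr2 (1 : Matrix (Fin d) (Fin d) ℂ) = d := by
  unfold fr2
  rw [Matrix.conjTranspose_one, one_mul, Matrix.trace_one]
  simp

theorem fr2_le_opn : fr2 a ≤ opn a ^ 2 * d := by
  have h := fr2_mul_le a 1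
  rwa [mul_one, fr2_one] at h

theorem hs2_nonneg : 0 ≤ hs2 a := by
  rw [hs2_eq]
  exact div_nonneg (fr2_nonneg a) (Nat.cast_nonneg _)

theorem hs2_star : hs2 a.conjTranspose = hs2 a := by
  rw [hs2_eq, hs2_eq, fr2_star]

theorem hs2_neg : hs2 (-a) = hs2 a := by
  rw [hs2_eq, hs2_eq, fr2_neg]

theorem hs2_sub_comm : hs2 (a - b) = hs2 (b - a) := by
  rw [← hs2_neg, neg_sub]

theorem hs2_add_le : hs2 (a + b) ≤ 2 * hs2 a + 2 * hs2 b := by
  rw [hs2_eq, hs2_eq, hs2_eq, ← mul_div_assoc, ← mul_div_assoc, ← add_div]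
  exact div_le_div_of_nonneg_right (fr2_add_le a b) (Nat.cast_nonneg _)

theorem hs2_sub_sub_le (c : Matrix (Fin d) (Fin d) ℂ) :
    hs2 (a - c) ≤ 2 * hs2 (a - b) + 2 * hs2 (b - c) := by
  have h : a - c = (a - b) + (b - c) := by abel
  rw [h]
  exact hs2_add_le _ _

theorem hs2_mul_le : hs2 (a * b) ≤ opn a ^ 2 * hs2 b := by
  rw [hs2_eq, hs2_eq, ← mul_div_assoc]
  exact div_le_div_of_nonneg_right (fr2_mul_le a b) (Nat.cast_nonneg _)

theorem hs2_mul_le' : hs2 (a * b) ≤ opn b ^ 2 * hs2 a := by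
  rw [hs2_eq, hs2_eq, ← mul_div_assoc]
  exact div_le_div_of_nonneg_right (fr2_mul_le' a b) (Nat.cast_nonneg _)

theorem hs2_le_opn : hs2 a ≤ opn a ^ 2 := by
  rw [hs2_eq]
  exact div_le_of_le_mul₀ (Nat.cast_nonneg _) (sq_nonneg _) (fr2_le_opn a)

theorem hs2_unitary_mul (u : Matrix.unitaryGroup (Fin d) ℂ) : hs2 (u.val * a) = hs2 a := by
  have h1 : opn u.val ^ 2 ≤ 1 := pow_le_one₀ (opn_nonneg _) (opn_unitary_le u)
  have h2 : opn (u.val).conjTranspose ^ 2 ≤ 1 := by rw [opn_star]; exact h1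
  apply le_antisymm
  · exact (hs2_mul_le _ _).trans ((mul_le_mul_of_nonneg_right h1 (hs2_nonneg a)).trans
      (by rw [one_mul]))
  · have h : a = (u.val).conjTranspose * (u.val * a) := by
      rw [← mul_assoc, u_star_mul, one_mul]
    conv_lhs => rw [h]
    exact (hs2_mul_le _ _).trans ((mul_le_mul_of_nonneg_right h2 (hs2_nonneg _)).trans
      (by rw [one_mul]))

theorem hs2_mul_unitary (u : Matrix.unitaryGroup (Fin d) ℂ) : hs2 (a * u.val) = hs2 a := by
  have h1 : opn u.val ^ 2 ≤ 1 := pow_le_one₀ (opn_nonneg _) (opn_unitary_le u)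
  have h2 : opn (u.val).conjTranspose ^ 2 ≤ 1 := by rw [opn_star]; exact h1
  apply le_antisymm
  · exact (hs2_mul_le' _ _).trans ((mul_le_mul_of_nonneg_right h1 (hs2_nonneg a)).trans
      (by rw [one_mul]))
  · have h : a = (a * u.val) * (u.val).conjTranspose := by
      rw [mul_assoc, u_mul_star, mul_one]
    conv_lhs => rw [h]
    exact (hs2_mul_le' _ _).trans ((mul_le_mul_of_nonneg_right h2 (hs2_nonneg _)).trans
      (by rw [one_mul]))

theorem hs2_star_mul (u : Matrix.unitaryGroup (Fin d) ℂ) :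
    hs2 ((u.val).conjTranspose * a) = hs2 a := hs2_unitary_mul a u⁻¹

theorem hs2_mul_star (u : Matrix.unitaryGroup (Fin d) ℂ) :
    hs2 (a * (u.val).conjTranspose) = hs2 a := hs2_mul_unitary a u⁻¹

end fro

section lim

variable {l : Filter ℕ} {d : ℕ → ℕ}

/-- squeeze for nonnegative sequences -/
theorem tz_of_le {f g : ℕ → ℝ} (h0 : ∀ n, 0 ≤ f n) (hfg : ∀ n, f n ≤ g n)
    (hg : Tendsto g l (𝓝 0)) : Tendsto f l (𝓝 0) :=
  squeeze_zero h0 hfg hg

theorem tz_hs2_of_opn {x : ∀ n, Matrix (Fin (d n)) (Fin (d n)) ℂ}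
    (hx : Tendsto (fun n => opn (x n)) l (𝓝 0)) : Tendsto (fun n => hs2 (x n)) l (𝓝 0) := by
  refine tz_of_le (fun n => hs2_nonneg _) (fun n => hs2_le_opn _) ?_
  have := hx.pow 2
  simpa using this

theorem tz_opn_add {x y : ∀ n, Matrix (Fin (d n)) (Fin (d n)) ℂ}
    (hx : Tendsto (fun n => opn (x n)) l (𝓝 0)) (hy : Tendsto (fun n => opn (y n)) l (𝓝 0)) :
    Tendsto (fun n => opn (x n + y n)) l (𝓝 0) := by
  refine tz_of_le (fun n => opn_nonneg _) (fun n => opn_add_le _ _) ?_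
  have := hx.add hy
  simpa using this

theorem tz_hs2_add {x y : ∀ n, Matrix (Fin (d n)) (Fin (d n)) ℂ}
    (hx : Tendsto (fun n => hs2 (x n)) l (𝓝 0)) (hy : Tendsto (fun n => hs2 (y n)) l (𝓝 0)) :
    Tendsto (fun n => hs2 (x n + y n)) l (𝓝 0) := by
  refine tz_of_le (fun n => hs2_nonneg _) (fun n => hs2_add_le _ _) ?_
  have := (hx.const_mul 2).add (hy.const_mul 2)
  simpa using this

/-- transfer of smallness in the normalised Hilbert-Schmidt norm -/
theorem tz_hs2_congr {x y : ∀ n, Matrix (Fin (d n)) (Fin (d n)) ℂ}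
    (hx : Tendsto (fun n => hs2 (x n)) l (𝓝 0))
    (hxy : Tendsto (fun n => opn (y n - x n)) l (𝓝 0)) :
    Tendsto (fun n => hs2 (y n)) l (𝓝 0) := by
  have h := tz_hs2_add hx (tz_hs2_of_opn hxy)
  simpa using h

variable {G : Type} [Group G] {U : ∀ n, G → Matrix.unitaryGroup (Fin (d n)) ℂ}

theorem AH.mono {l' : Filter ℕ} (hU : AH l d U) (h : l' ≤ l) : AH l' d U :=
  fun g g' => (hU g g').mono_left h

theorem AH.one (hU : AH l d U) : Tendsto (fun n => opn ((U n 1).val - 1)) l (𝓝 0) := by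
  refine (hU 1 1).congr fun n => ?_
  rw [mul_one]
  have h : (U n 1).val - (U n 1).val * (U n 1).val = (U n 1).val * (1 - (U n 1).val) := by
    rw [mul_sub, mul_one]
  rw [h, opn_unitary_mul, opn_sub_comm]

theorem AH.inv (hU : AH l d U) (g : G) :
    Tendsto (fun n => opn ((U n g⁻¹).val - ((U n g).val).conjTranspose)) l (𝓝 0) := by
  have h1 := (hU g g⁻¹).add hU.one
  rw [add_zero] at h1
  refine tz_of_le (fun n => opn_nonneg _) (fun n => ?_) h1
  rw [← opn_unitary_mul (U n g) ((U n g⁻¹).val - ((U n g).val).conjTranspose), mul_sub,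
    u_mul_star, mul_inv_cancel]
  have e : (U n g).val * (U n g⁻¹).val - 1 =
      -((U n 1).val - (U n g).val * (U n g⁻¹).val) + ((U n 1).val - 1) := by abel
  rw [e]
  refine (opn_add_le _ _).trans ?_
  rw [opn_neg]

end lim

section ar

variable {G : Type} [Group G] {l : Filter ℕ} {E : ℕ → Type} [∀ n, NormedAddCommGroup (E n)]
  [∀ n, InnerProductSpace ℂ (E n)] [∀ n, CompleteSpace (E n)]
  {U : ∀ n, G → unitary (E n →L[ℂ] E n)}

theorem unorm {H : Type} [NormedAddCommGroup H] [InnerProductSpace ℂ H] [CompleteSpace H]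
    (u : unitary (H →L[ℂ] H)) (x : H) : ‖(u : H →L[ℂ] H) x‖ = ‖x‖ := by
  have h : star (u : H →L[ℂ] H) * (u : H →L[ℂ] H) = 1 := Unitary.coe_star_mul_self u
  have h2 : ‖(u : H →L[ℂ] H) x‖ ^ 2 = ‖x‖ ^ 2 := by
    rw [← inner_self_eq_norm_sq (𝕜 := ℂ), ← inner_self_eq_norm_sq (𝕜 := ℂ)]
    congr 1
    rw [← ContinuousLinearMap.adjoint_inner_right, ← ContinuousLinearMap.star_eq_adjoint]
    have h3 : star (u : H →L[ℂ] H) ((u : H →L[ℂ] H) x) =
      (star (u : H →L[ℂ] H) * (u : H →L[ℂ] H)) x := rfl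
    rw [h3, h]
    rfl
  exact (sq_eq_sq₀ (norm_nonneg _) (norm_nonneg _)).1 h2

theorem opnorm_le_one {H : Type} [NormedAddCommGroup H] [InnerProductSpace ℂ H] [CompleteSpace H]
    (u : unitary (H →L[ℂ] H)) : ‖(u : H →L[ℂ] H)‖ ≤ 1 :=
  ContinuousLinearMap.opNorm_le_bound _ zero_le_one fun x => by
    rw [one_mul]
    exact (unorm u x).le

theorem norm_unitary_mul {H : Type} [NormedAddCommGroup H] [InnerProductSpace ℂ H]
    [CompleteSpace H] (u : unitary (H →L[ℂ] H)) (a : H →L[ℂ] H) :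
    ‖(u : H →L[ℂ] H) * a‖ = ‖a‖ := by
  apply le_antisymm
  · refine (norm_mul_le _ _).trans ?_
    exact (mul_le_mul_of_nonneg_right (opnorm_le_one u) (norm_nonneg a)).trans (by rw [one_mul])
  · have h : a = ((star u : unitary (H →L[ℂ] H)) : H →L[ℂ] H) * ((u : H →L[ℂ] H) * a) := by
      rw [← mul_assoc, Unitary.coe_star, Unitary.coe_star_mul_self, one_mul]
    conv_lhs => rw [h]
    refine (norm_mul_le _ _).trans ?_
    exact (mul_le_mul_of_nonneg_right (opnorm_le_one (star u)) (norm_nonneg _)).trans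
      (by rw [one_mul])

theorem AR.one (hU : AR l E U) : Tendsto (fun n => ‖(U n 1 : E n →L[ℂ] E n) - 1‖) l (𝓝 0) := by
  refine (hU 1 1).congr fun n => ?_
  rw [mul_one]
  have h : (U n 1 : E n →L[ℂ] E n) - (U n 1 : E n →L[ℂ] E n) * (U n 1 : E n →L[ℂ] E n) =
      (U n 1 : E n →L[ℂ] E n) * (1 - (U n 1 : E n →L[ℂ] E n)) := by
    rw [mul_sub, mul_one]
  rw [h, norm_unitary_mul, norm_sub_rev]

theorem AR.inv (hU : AR l E U) (g : G) :
    Tendsto (fun n => ‖(U n g⁻¹ : E n →L[ℂ] E n) - star (U n g : E n →L[ℂ] E n)‖) l (𝓝 0) := by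
  have h1 := (hU g g⁻¹).add hU.one
  rw [add_zero] at h1
  refine squeeze_zero (fun n => norm_nonneg _) (fun n => ?_) h1
  rw [← norm_unitary_mul (U n g) ((U n g⁻¹ : E n →L[ℂ] E n) - star (U n g : E n →L[ℂ] E n)),
    mul_sub, mul_inv_cancel]
  have e0 : (U n g : E n →L[ℂ] E n) * star (U n g : E n →L[ℂ] E n) = 1 :=
    Unitary.coe_mul_star_self (U n g)
  rw [e0]
  have e : (U n g : E n →L[ℂ] E n) * (U n g⁻¹ : E n →L[ℂ] E n) - 1 =
      -((U n 1 : E n →L[ℂ] E n) - (U n g : E n →L[ℂ] E n) * (U n g⁻¹ : E n →L[ℂ] E n)) +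
        ((U n 1 : E n →L[ℂ] E n) - 1) := by abel
  rw [e]
  refine (norm_add_le _ _).trans ?_
  rw [norm_neg]

end ar

end

end Pool.Agent.N708.MX
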