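import Pool.Agent.N708.MX.Asm
import Pool.Agent.N55.MX.Sub
import Pool.Agent.N291.MX.GAP
import Pool.Agent.N50.MX.RANK
import Pool.Agent.N346.MX.Com
import Pool.Agent.N386.MXTRIV
import Pool.Agent.N55.MX.Polar
import Pool.Agent.N170.MX.CMP
import Pool.Agent.N494.MX.Main
import Pool.Agent.N375.MX.UNIV
import Pool.Agent.N8.MX.PERM
import Pool.Agent.N946.MX.ALG
import Pool.Agent.N767.MX.ENDO
import Pool.Agent.N495.MX.Act
import Pool.Agent.N403.MX.FGTT

/-!
# Project MX: the steps put together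
-/

set_option autoImplicit false

namespace Pool.Agent.N708.MX

theorem rank : S_RANK := Pool.Agent.N50.MX.t_rank Pool.Agent.N291.MX.GAP.t_gap Pool.Agent.N55.MX.t_SUB

theorem triv : S_TRIV := Pool.Agent.N386.MXTRIV.t_triv (Pool.Agent.N346.MX.t_com rank)

theorem main : S_MAIN :=
  Pool.Agent.N494.MX.t_main rank (Pool.Agent.N170.MX.t_cmp Pool.Agent.N55.MX.t_POLAR) triv

theorem group : S_GROUP :=
  group_of Pool.Agent.N946.MX.t_alg Pool.Agent.N767.MX.t_endo Pool.Agent.N495.MX.t_ACT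
    Pool.Agent.N403.MX.t_fg Pool.Agent.N403.MX.t_tt Pool.Agent.N375.MX.t_univ

theorem perm : S_PERM := Pool.Agent.N8.MX.PERM.t_perm

end Pool.Agent.N708.MX
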