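import Pool.Agent.N708.MX.Gr2
import Pool.Agent.N300.MX.REG
import Pool.Agent.N364.MX.INF
import Pool.Agent.N717.MX.NOH

/-!
# Project MX: second application
-/

set_option autoImplicit false

namespace Pool.Agent.N708.MX

open Filter Topology

theorem final2_of (hI : S_INF) (hR : S_REG) (hN : S_NOH) :
    ∃ (G : Type) (_ : Group G) (_ : Countable G), ¬ IsAmenable G ∧
    ∀ (d : ℕ → ℕ) (θ : ∀ n, Cred G → Matrix (Fin (d n)) (Fin (d n)) ℂ), AsHom d θ →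
      ∀ a, Tendsto (fun n => opn (θ n a)) atTop (𝓝 0) := by
  obtain ⟨K, G, _, iG, iC, φ, ι, h, k, γ, k₀, hPT, hγ, hD, hun, hX⟩ := group
  have hne := iota_ne_one φ ι h hun k₀ hX
  have hinf := hI K G φ ι h k γ hPT hγ hD ⟨k₀, hne⟩
  obtain ⟨hgap, hna⟩ := hR K G ι k γ hPT hγ hinf
  exact ⟨G, iG, iC, hna, hN K G φ ι h k γ hPT hγ hD hgap⟩

theorem final2 :
    ∃ (G : Type) (_ : Group G) (_ : Countable G), ¬ IsAmenable G ∧
    ∀ (d : ℕ → ℕ) (θ : ∀ n, Cred G → Matrix (Fin (d n)) (Fin (d n)) ℂ), AsHom d θ →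
      ∀ a, Tendsto (fun n => opn (θ n a)) atTop (𝓝 0) :=
  final2_of (Pool.Agent.N364.MX.t_inf main) Pool.Agent.N300.MX.t_reg
    (Pool.Agent.N717.MX.t_noh Pool.Agent.N55.MX.t_POLAR main)

end Pool.Agent.N708.MX
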