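import Pool.Agent.N708.MX.Fin
import Pool.Agent.N708.MX.Stm3

/-!
# Project MX: nontriviality of `K` in `G`
-/

set_option autoImplicit false

namespace Pool.Agent.N708.MX

open Filter Topology

/-- `ι k₀ ≠ 1` when there are finite actions as in `S_PERM`. -/
theorem iota_ne_one {K G : Type} [Group K] [Group G] (φ : K →* K) (ι : K →* G) (h : G)
    (hun : ∀ (Q : Type) [Group Q] (f : K →* Q) (t : Q), (∀ a, t⁻¹ * f a * t = f (φ a)) →
        ∃ F : G →* Q, (∀ a, F (ι a) = f a) ∧ F h = t) (k₀ : K)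
    (hX : ∀ m : ℕ, ∃ (X : Type) (_ : Fintype X) (_ : DecidableEq X) (_ : Nonempty X)
      (α : K →* Equiv.Perm X), ∀ j ≤ m,
        2 * (Finset.univ.filter fun x => α (φ^[j] k₀) x = x).card ≤ Fintype.card X) :
    ι k₀ ≠ 1 := by
  intro h1
  obtain ⟨d, U, hU, hno⟩ := perm K G φ ι h hun k₀ hX
  apply hno
  have h2 := hU 1 1
  rw [h1]
  refine h2.congr fun n => ?_
  rw [mul_one]
  have e : (U n 1).val - (U n 1).val * (U n 1).val = (U n 1).val * (1 - (U n 1).val) := by
    rw [mul_sub, mul_one]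
  rw [e, hs2_unitary_mul, hs2_sub_comm]

end Pool.Agent.N708.MX
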