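import Pool.Agent.N708.MX.Stm

/-!
# Project MX: compression
-/

set_option autoImplicit false

namespace Pool.Agent.N708.MX

open Filter Topology

noncomputable section

/-- the operator of a unitary matrix on the Euclidean space -/
abbrev op {d : ℕ} (u : Matrix.unitaryGroup (Fin d) ℂ) :
    EuclideanSpace ℂ (Fin d) →L[ℂ] EuclideanSpace ℂ (Fin d) :=
  Matrix.toEuclideanCLM (𝕜 := ℂ) u.val

/-- CMP: compression of an asymptotic homomorphism to almost invariant subspaces. -/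
def S_CMP : Prop :=
  ∀ (G : Type) [Group G] (l : Filter ℕ) (d : ℕ → ℕ)
    (U : ∀ n, G → Matrix.unitaryGroup (Fin (d n)) ℂ), AH l d U →
    ∀ W : ∀ n, Submodule ℂ (EuclideanSpace ℂ (Fin (d n))),
      (∀ (g : G) (ε : ℝ), 0 < ε → ∀ᶠ n in l, ∀ v ∈ W n, ∃ w ∈ W n,
        ‖op (U n g) v - w‖ ≤ ε * ‖v‖) →
      ∃ (U' : ∀ n, G → Matrix.unitaryGroup (Fin (Module.finrank ℂ (W n))) ℂ)
        (J : ∀ n, EuclideanSpace ℂ (Fin (Module.finrank ℂ (W n))) →ₗᵢ[ℂ]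
          EuclideanSpace ℂ (Fin (d n))),
        AH l (fun n => Module.finrank ℂ (W n)) U' ∧ (∀ n v, J n v ∈ W n) ∧
        ∀ (g : G) (ε : ℝ), 0 < ε → ∀ᶠ n in l, ∀ v,
          ‖op (U n g) (J n v) - J n (op (U' n g) v)‖ ≤ ε * ‖v‖

end

end Pool.Agent.N708.MX
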